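import Pool.Agent.H.MP_96a9b8_gt.C

namespace Pool.Agent.Results.MP_96a9b8_gt.Yes

open Set Topology

/-- The points different from `z` that cannot be separated from `z` by disjoint open sets. -/
def NH {M : Type} [TopologicalSpace M] (z : M) : Set M :=
  {y | y ≠ z ∧ ∀ U V : Set M, IsOpen U → IsOpen V → y ∈ U → z ∈ V → (U ∩ V).Nonempty}

/-- The first uncountable ordinal as a linearly ordered type. -/
abbrev W : Type := (Ordinal.omega.{0} 1).ToType

/-- The long ray with the lexicographic order. -/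
abbrev LR : Type := W ×ₗ Ico (0 : ℝ) 1

theorem result :
    ∃ (n : ℕ) (M : Type) (_ : TopologicalSpace M), 1 ≤ n ∧ ConnectedSpace M ∧
      (∀ x : M, ∃ U : Set M, IsOpen U ∧ x ∈ U ∧ Nonempty (U ≃ₜ EuclideanSpace ℝ (Fin n))) ∧
      ¬ T2Space M ∧ (∀ x y : M, ∃ h : M ≃ₜ M, h x = y) ∧
      ∀ z : M,
        (∃ A : Set M, A ⊆ NH z ∧ Nonempty (@Homeomorph A W _ (Preorder.topology W))) ∧
        (∃ B : Set M, B ⊆ NH z ∧ Nonempty (@Homeomorph B LR _ (Preorder.topology LR))) := by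
  have hW1 : NoMaxOrder W := by
    unfold W
    rw [← Cardinal.ord_aleph]
    exact Cardinal.noMaxOrder (Cardinal.aleph0_le_aleph 1)
  have hW2 : ∀ a : W, (Iio a).Countable := by
    unfold W
    rw [← Cardinal.ord_aleph]
    intro a
    exact Cardinal.countable_iff_lt_aleph_one _ |>.2 (Cardinal.mk_Iio_toType_ord_lt a)
  have hW3 : Nonempty W := Ordinal.nonempty_toType_iff.2 (Ordinal.omega_pos 1).ne'
  have hc : ∀ a : WithBot W, (Iio a).Countable := by
    intro a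
    induction a with
    | bot => simp
    | coe a =>
      refine (((hW2 a).image (fun b : W => (b : WithBot W))).insert ⊥).mono fun b hb => ?_
      induction b with
      | bot => exact Or.inl rfl
      | coe b => exact Or.inr ⟨b, WithBot.coe_lt_coe.1 hb, rfl⟩
  let _ : TopologicalSpace W := Preorder.topology W
  have : OrderTopology W := ⟨rfl⟩
  let _ : TopologicalSpace LR := Preorder.topology LR
  have : OrderTopology LR := ⟨rfl⟩
  let _ : TopologicalSpace (WithBot W ×ₗ Ico (0 : ℝ) 1) := Preorder.topology _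
  have : OrderTopology (WithBot W ×ₗ Ico (0 : ℝ) 1) := ⟨rfl⟩
  obtain ⟨M, τ, z, f, h1, h2, h3, h4, h5⟩ := H.MP_96a9b8_gt.main hc
  let σ : LR → WithBot W ×ₗ Ico (0 : ℝ) 1 := fun x => toLex (((ofLex x).1 : W), (ofLex x).2)
  have hσ : IsEmbedding σ := by
    refine StrictMono.isEmbedding_of_ordConnected (fun x y hxy => ?_) ⟨?_⟩
    · rcases (H.MP_96a9b8_gt.lr_lt _ _).1 hxy with h | h
      · exact (H.MP_96a9b8_gt.lr_lt _ _).2 (Or.inl (WithBot.coe_lt_coe.2 h))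
      · exact (H.MP_96a9b8_gt.lr_lt _ _).2 (Or.inr ⟨congrArg (fun b : W => (b : WithBot W)) h.1, h.2⟩)
    · rintro _ ⟨x, rfl⟩ _ - y ⟨hy, -⟩
      have h6 : (ofLex y).1 ≠ ⊥ := by
        intro h7
        refine absurd hy (not_le.2 ((H.MP_96a9b8_gt.lr_lt _ _).2 (Or.inl ?_)))
        rw [h7]
        exact WithBot.bot_lt_coe _
      obtain ⟨g, hg⟩ := WithBot.ne_bot_iff_exists.1 h6
      exact ⟨toLex (g, (ofLex y).2), congrArg toLex (Prod.ext hg rfl : (_, _) = ofLex y)⟩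
  have : Nonempty LR := ⟨toLex (hW3.some, ⟨0, le_rfl, one_pos⟩)⟩
  obtain ⟨C, τC, c1, c2, c3, c4, c5⟩ := H.MP_96a9b8_gt.comp h1 z h2 (f ∘ σ) (h3.comp hσ)
    (fun x => h4 _ ⟨toLex (⊥, (ofLex x).2),
      (H.MP_96a9b8_gt.lr_lt _ _).2 (Or.inl (WithBot.bot_lt_coe _))⟩) (fun x => h5 _)
  refine ⟨2, C, τC, by norm_num, c1, c2, c3, c4, fun w => ?_⟩
  obtain ⟨g, hg1, hg2⟩ := c5 w
  refine ⟨⟨_, ?_, ⟨(hg1.comp H.MP_96a9b8_gt.lr_emb).toHomeomorph.symm⟩⟩,
    ⟨_, ?_, ⟨hg1.toHomeomorph.symm⟩⟩⟩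
  · rintro _ ⟨a, rfl⟩
    exact hg2 _
  · rintro _ ⟨a, rfl⟩
    exact hg2 _

end Pool.Agent.Results.MP_96a9b8_gt.Yes
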